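import Pool.Agent.Helper49.PA.GoalsA

/-! MP_c20641_lc, packet STEP: the one step of the tower from the ring of copies. -/

namespace PA49.PkStep

variable {L : Type} [Lattice L] [BoundedOrder L]

theorem le_infP {X : Type} (s : PSim L X) (P : List (X × X)) (r : L) :
    r ≤ infP s P ↔ ∀ p ∈ P, r ≤ s.k p.1 p.2 := by
  induction P with
  | nil => simp [infP]
  | cons a P ih =>
    have : infP s (a :: P) = s.k a.1 a.2 ⊓ infP s P := rfl
    rw [this, le_inf_iff, ih]
    simp

theorem infP_le_of {X Y : Type} (s : PSim L X) (t : PSim L Y) (P : List (X × X))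
    (Q : List (Y × Y)) (h : ∀ q ∈ Q, ∃ p ∈ P, s.k p.1 p.2 ≤ t.k q.1 q.2) :
    infP s P ≤ infP t Q := by
  rw [le_infP]
  intro q hq
  obtain ⟨p, hp, h1⟩ := h q hq
  exact ((le_infP s P _).mp le_rfl p hp).trans h1

theorem chain_map {Y W V : Type} (t : PSim L Y) (w : PSim L W) (v : PSim L V)
    (P Q : List (Y × Y)) (hPQ : ∀ p ∈ P, p ∈ Q) (g : W → V) (hg : NE w v g) {a b : W}
    (h : Chain t w P a b) : Chain t v Q (g a) (g b) := by
  unfold Chain at h
  induction h with
  | rel a b h =>
    obtain ⟨f, hf, p, hp, h1, h2⟩ := h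
    refine Relation.EqvGen.rel _ _ ⟨g ∘ f, ?_, p, hPQ p hp, ?_, ?_⟩
    · intro x y
      exact (hf x y).trans (hg _ _)
    · rw [h1]; rfl
    · rw [h2]; rfl
  | refl a => exact Relation.EqvGen.refl _
  | symm a b _ ih => exact Relation.EqvGen.symm _ _ ih
  | trans a b c _ _ ih1 ih2 => exact Relation.EqvGen.trans _ _ _ ih1 ih2

theorem aux (h : G_RING) {X Y : Type} [Finite X] [Finite Y] (s : Sim L X) (t : Sim L Y)
    (e : X → Y) (he : Isom s.toPSim t.toPSim e) (R : List (List (X × X) × X × X)) :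
    ∃ (V : Type) (_ : Finite V) (v : Sim L V) (i : Y → V), Isom t.toPSim v.toPSim i ∧
      ∀ q ∈ R, infP s.toPSim q.1 ≤ s.k q.2.1 q.2.2 →
        Chain t.toPSim v.toPSim (q.1.map fun p => (e p.1, e p.2)) (i (e q.2.1)) (i (e q.2.2)) := by
  induction R with
  | nil =>
    exact ⟨Y, inferInstance, t, id, fun _ _ => rfl, by simp⟩
  | cons a R ih =>
    obtain ⟨V, hV, v, i, hi, hR⟩ := ih
    by_cases ha : infP s.toPSim a.1 ≤ s.k a.2.1 a.2.2
    · have h1 : infP t.toPSim (a.1.map fun p => (e p.1, e p.2))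
          ≤ v.k (i (e a.2.1)) (i (e a.2.2)) := by
        have h2 : v.k (i (e a.2.1)) (i (e a.2.2)) = s.k a.2.1 a.2.2 := by
          rw [hi, he]
        rw [h2]
        refine le_trans ?_ ha
        apply infP_le_of
        intro p hp
        exact ⟨(e p.1, e p.2), List.mem_map.mpr ⟨p, hp, rfl⟩, le_of_eq (he p.1 p.2)⟩
      obtain ⟨V', hV', v', i', hi', hC⟩ := h L V Y v t _ _ _ h1
      refine ⟨V', hV', v', i' ∘ i, ?_, ?_⟩
      · intro x y
        simp only [Function.comp]
        rw [hi', hi]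
      · intro q hq hq1
        rcases List.mem_cons.mp hq with h3 | h3
        · rw [h3]
          exact hC
        · exact chain_map _ _ _ _ _ (fun p hp => hp) i' (fun x y => le_of_eq (hi' x y).symm)
            (hR q h3 hq1)
    · refine ⟨V, hV, v, i, hi, ?_⟩
      intro q hq hq1
      rcases List.mem_cons.mp hq with h3 | h3
      · rw [h3] at hq1
        exact absurd hq1 ha
      · exact hR q h3 hq1

theorem step (h : G_RING) : G_STEP := by
  intro L _ _ X Y _ _ s t e he
  classical
  have : Fintype X := Fintype.ofFinite X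
  let R : List (List (X × X) × X × X) :=
    ((Finset.univ : Finset (Finset (X × X) × X × X)).toList).map fun q => (q.1.toList, q.2)
  obtain ⟨V, hV, v, i, hi, hR⟩ := aux h s t e he R
  refine ⟨V, hV, v, i, hi, ?_⟩
  intro P c d hP
  have h1 : (P.toFinset.toList, (c, d)) ∈ R :=
    List.mem_map.mpr ⟨(P.toFinset, (c, d)), by simp, rfl⟩
  have h2 : infP s.toPSim P.toFinset.toList ≤ s.k c d := by
    refine le_trans (infP_le_of _ _ _ _ ?_) hP
    intro p hp
    exact ⟨p, by simpa using hp, le_rfl⟩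
  have h3 := hR _ h1 h2
  have h4 := chain_map _ _ v.toPSim _ (P.map fun p => (e p.1, e p.2)) (by
    intro p hp
    simp only [List.mem_map, Finset.mem_toList, List.mem_toFinset] at hp ⊢
    exact hp) id (fun x y => le_rfl) h3
  exact h4

end PA49.PkStep
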